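import Pool.Agent.U866.CMO.Stmts
import Pool.Agent.H992R3.MO.T5b

/-! # T5b: pointwise bound of the completely multiplicative weight -/

set_option autoImplicit false

open Finset Filter Topology

namespace Pool.Agent.U866.CMO

lemma wt_le_r (N₀ p : ℕ) (hN₀ : 3 ≤ N₀) : wt N₀ p ≤ 1 / (Real.log 3) ^ 2 := by
  have hlog3 : 0 < Real.log 3 := Real.log_pos (by norm_num)
  unfold wt
  split_ifs with h
  · apply one_div_le_one_div_of_le (by positivity)
    apply pow_le_pow_left₀ hlog3.le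
    apply Real.log_le_log (by norm_num)
    exact_mod_cast hN₀.trans h
  · positivity

lemma bw_smooth (N₀ : ℕ) (hN₀ : 3 ≤ N₀) (a T : ℝ) (ha : 0 < a)
    (har : 1 / (Real.log 3) ^ 2 = Real.exp (-a)) (hT : 0 < T) (m : ℕ) :
    m ≠ 0 → (∀ p : ℕ, p.Prime → p ∣ m → Real.log p ≤ T) →
      bw N₀ m ≤ Real.exp (-(a * Real.log m / T)) := by
  induction m using Nat.recOnMul with
  | zero => exact fun h => absurd rfl h
  | one =>
    intro _ _
    rw [bw_one]
    simp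
  | prime p hp =>
    intro _ h
    rw [bw_prime N₀ p hp]
    refine (wt_le_r N₀ p hN₀).trans ?_
    rw [har]
    apply Real.exp_le_exp.2
    have h1 := h p hp dvd_rfl
    have h2 : a * Real.log p / T ≤ a := by
      rw [div_le_iff₀ hT]
      exact mul_le_mul_of_nonneg_left h1 ha.le
    linarith
  | mul x y hx hy =>
    intro hxy h
    have hx0 : x ≠ 0 := left_ne_zero_of_mul hxy
    have hy0 : y ≠ 0 := right_ne_zero_of_mul hxy
    have h1 := hx hx0 (fun p hp hd => h p hp (hd.trans (dvd_mul_right x y)))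
    have h2 := hy hy0 (fun p hp hd => h p hp (hd.trans (dvd_mul_left y x)))
    rw [bw_mul_all]
    refine (mul_le_mul h1 h2 (bw_nonneg _ _) (Real.exp_pos _).le).trans (le_of_eq ?_)
    rw [← Real.exp_add, Nat.cast_mul, Real.log_mul (by exact_mod_cast hx0) (by exact_mod_cast hy0)]
    congr 1
    ring

theorem t5b : T5b := by
  intro θ κ hθ hθ1 hκ N₀ hN₀
  have hlog3 : 1 < Real.log 3 := by
    rw [Real.lt_log_iff_exp_lt (by norm_num)]
    have := Real.exp_one_lt_d9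
    linarith
  obtain ⟨r, hr⟩ : ∃ r : ℝ, r = 1 / (Real.log 3) ^ 2 := ⟨_, rfl⟩
  have hr0 : 0 < r := by rw [hr]; positivity
  have hr1 : r < 1 := by
    rw [hr, div_lt_one (by positivity)]
    nlinarith
  obtain ⟨a, ha⟩ : ∃ a : ℝ, a = - Real.log r := ⟨_, rfl⟩
  have ha0 : 0 < a := by
    rw [ha]
    have := Real.log_neg hr0 hr1
    linarith
  have har : 1 / (Real.log 3) ^ 2 = Real.exp (-a) := by
    rw [ha, neg_neg, Real.exp_log hr0, hr]
  have E1 : ∀ᶠ L : ℝ in atTop, L ^ (-((1:ℝ)/5)) ≤ κ := by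
    have := (tendsto_rpow_neg_atTop (show (0:ℝ) < 1/5 by norm_num)).eventually
      (gt_mem_nhds hκ)
    filter_upwards [this] with L hL using hL.le
  have E2 := Pool.Agent.H992R3.MO.ev2 (a * (θ / 2)) κ (by positivity) hκ
  have E3 : ∀ᶠ L : ℝ in atTop, L ^ (-((1:ℝ)/5)) ≤ κ ∧
      Real.exp (-(a * (θ / 2) * L ^ ((1:ℝ)/5))) ≤ κ / L ^ 3 ∧ 1 ≤ L := by
    filter_upwards [E1, E2, eventually_ge_atTop (1:ℝ)] with L h1 h2 h3 using ⟨h1, h2, h3⟩
  have E4 : ∀ᶠ X : ℕ in atTop, (Real.log X) ^ (-((1:ℝ)/5)) ≤ κ ∧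
      Real.exp (-(a * (θ / 2) * (Real.log X) ^ ((1:ℝ)/5))) ≤ κ / (Real.log X) ^ 3 ∧
        1 ≤ Real.log X :=
    (Real.tendsto_log_atTop.comp tendsto_natCast_atTop_atTop).eventually E3
  obtain ⟨X₁, hX₁⟩ := eventually_atTop.1 E4
  refine ⟨max X₁ 3, le_max_right _ _, ?_⟩
  intro X n hX hn1 hn2 hq
  obtain ⟨e1, e2, e3⟩ := hX₁ X ((le_max_left _ _).trans hX)
  have hX3 : 3 ≤ X := (le_max_right _ _).trans hX
  obtain ⟨L, hL⟩ : ∃ L : ℝ, L = Real.log X := ⟨_, rfl⟩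
  rw [← hL] at e1 e2 e3 ⊢
  have hL0 : 0 < L := by linarith
  have hXpos : (0:ℝ) < X := by exact_mod_cast (by omega : 0 < X)
  have hn0 : n ≠ 0 := by omega
  obtain ⟨T, hT⟩ : ∃ T : ℝ, T = L ^ ((4:ℝ)/5) := ⟨_, rfl⟩
  have hT0 : 0 < T := by rw [hT]; positivity
  have hwT : ∀ p : ℕ, T ≤ Real.log p → wt N₀ p ≤ 1 / T ^ 2 := by
    intro p hpT
    unfold wt
    split_ifs
    · apply one_div_le_one_div_of_le (by positivity)
      exact pow_le_pow_left₀ hT0.le hpT 2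
    · positivity
  -- the final step for smooth numbers
  have hsm : ∀ m : ℕ, m ≠ 0 → (∀ p : ℕ, p.Prime → p ∣ m → Real.log p ≤ T) →
      (X:ℝ) ^ (θ / 2) < m → bw N₀ m ≤ κ / L ^ 3 := by
    intro m hm0 hm hmX
    refine (bw_smooth N₀ hN₀ a T ha0 har hT0 m hm0 hm).trans (le_trans ?_ e2)
    apply Real.exp_le_exp.2
    apply neg_le_neg
    have h1 : θ / 2 * L ≤ Real.log m := by
      rw [hL, ← Real.log_rpow hXpos]
      exact Real.log_le_log (Real.rpow_pos_of_pos hXpos _) hmX.le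
    rw [le_div_iff₀ hT0]
    have h9 : L = L ^ ((1:ℝ)/5) * T := by
      rw [hT, ← Real.rpow_add hL0]
      norm_num
    calc a * (θ / 2) * L ^ ((1:ℝ)/5) * T = a * (θ / 2 * (L ^ ((1:ℝ)/5) * T)) := by ring
      _ = a * (θ / 2 * L) := by rw [← h9]
      _ ≤ a * Real.log m := mul_le_mul_of_nonneg_left h1 ha0.le
  by_cases hbig : ∃ q : ℕ, q.Prime ∧ q ∣ n ∧ T < Real.log q
  · obtain ⟨q, hqp, ⟨m, rfl⟩, hqT⟩ := hbig
    have hm0 : m ≠ 0 := right_ne_zero_of_mul hn0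
    by_cases hbig2 : ∃ p : ℕ, p.Prime ∧ p ∣ m ∧ T < Real.log p
    · obtain ⟨p, hpp, ⟨k, rfl⟩, hpT⟩ := hbig2
      rw [bw_mul_all, bw_mul_all, bw_prime N₀ q hqp, bw_prime N₀ p hpp]
      have g1 := hwT q hqT.le
      have g2 := hwT p hpT.le
      have g3 := bw_le_one N₀ k hN₀
      have g4 : 1 / T ^ 2 * (1 / T ^ 2) = L ^ (-((1:ℝ)/5)) / L ^ 3 := by
        have : T ^ 4 = L ^ 3 * L ^ ((1:ℝ)/5) := by
          rw [hT, ← Real.rpow_natCast (L ^ ((4:ℝ)/5)) 4, ← Real.rpow_mul hL0.le,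
            ← Real.rpow_natCast L 3, ← Real.rpow_add hL0]
          norm_num
        rw [Real.rpow_neg hL0.le]
        have hl : L ^ ((1:ℝ)/5) ≠ 0 := (Real.rpow_pos_of_pos hL0 _).ne'
        rw [div_mul_div_comm, ← pow_add, this]
        field_simp
      calc wt N₀ q * (wt N₀ p * bw N₀ k) ≤ 1 / T ^ 2 * (1 / T ^ 2 * 1) := by
            apply mul_le_mul g1 _ (mul_nonneg (wt_nonneg _ _) (bw_nonneg _ _)) (by positivity)
            exact mul_le_mul g2 g3 (bw_nonneg _ _) (by positivity)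
        _ = L ^ (-((1:ℝ)/5)) / L ^ 3 := by rw [mul_one, g4]
        _ ≤ κ / L ^ 3 := by gcongr
    · push Not at hbig2
      have hqm : q ∈ (q * m).primeFactors := by
        rw [Nat.mem_primeFactors]
        exact ⟨hqp, dvd_mul_right _ _, hn0⟩
      have h1 := hq q hqm
      have hq0 : (0 : ℝ) < q := by exact_mod_cast hqp.pos
      rw [Nat.cast_mul, mul_comm (q : ℝ) m, mul_div_assoc, div_self hq0.ne', mul_one] at h1
      have h2 := hsm m hm0 hbig2 h1
      rw [bw_mul_all]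
      calc bw N₀ q * bw N₀ m ≤ 1 * bw N₀ m :=
            mul_le_mul_of_nonneg_right (bw_le_one N₀ q hN₀) (bw_nonneg _ _)
        _ ≤ κ / L ^ 3 := by rw [one_mul]; exact h2
  · push Not at hbig
    apply hsm n hn0 hbig
    have h5 : (X:ℝ) ^ (θ / 2) ≤ (X:ℝ) ^ (1:ℝ) :=
      Real.rpow_le_rpow_of_exponent_le (by exact_mod_cast (by omega : 1 ≤ X)) (by linarith)
    rw [Real.rpow_one] at h5
    have h6 : (X:ℝ) < n := by exact_mod_cast hn1
    linarith

end Pool.Agent.U866.CMO
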