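import Pool.Agent.U866.CMO.T3
import Pool.Agent.U866.CMO.T5a
import Pool.Agent.U866.CMO.T5b
import Pool.Agent.U866.CMO.T8
import Pool.Agent.U866.CMO.T9
import Pool.Agent.H932R4.MO.Final

/-!
# The greedy completely multiplicative function
-/

set_option autoImplicit false

open Finset Filter Topology

namespace Pool.Agent.U866.CMO

open Pool.Agent.H932R4.MO (Bd clip S ShortIntervals BT3 T7 Good S_diff ev_rpow ev_log half_rpow gapCount)

theorem t5 (ha : T5a) (hb : T5b) (hBT : BT3) (h3 : T3) : T5 := by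
  classical
  intro θ κ hθ0 hθ1 hκ
  obtain ⟨N₁, hN₁, hN⟩ := ha hBT h3 θ (κ / 2) hθ0 hθ1 (by positivity)
  refine ⟨N₁, hN₁, fun N₀ hN₀ => ?_⟩
  obtain ⟨X₁, hX₁, hX⟩ := hN N₀ hN₀
  obtain ⟨X₂, hX₂, hX'⟩ := hb θ (κ / 2) hθ0 hθ1 (by positivity) N₀ (hN₁.trans hN₀)
  refine ⟨max X₁ X₂, le_max_of_le_left hX₁, fun X Y hXX hXY hYX => ?_⟩
  have hXX1 : X₁ ≤ X := (le_max_left _ _).trans hXX
  have hXX2 : X₂ ≤ X := (le_max_right _ _).trans hXX
  have h1 := hX X Y hXX1 hXY hYX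
  set A := (Ioc X (X + Y)).filter (fun n : ℕ => ¬ n.Prime) with hA
  have hlog : 0 < Real.log X := Real.log_pos (by
    have : (3 : ℝ) ≤ X := by exact_mod_cast hX₁.trans hXX1
    linarith)
  rw [← Finset.sum_filter_add_sum_filter_not A
    (fun n : ℕ => ∃ q ∈ n.primeFactors, (n : ℝ) / (q : ℝ) ≤ (X : ℝ) ^ (θ / 2))]
  have e1 : A.filter (fun n : ℕ => ∃ q ∈ n.primeFactors, (n : ℝ) / (q : ℝ) ≤ (X : ℝ) ^ (θ / 2)) =
      (Ioc X (X + Y)).filter (fun n : ℕ => ¬ n.Prime ∧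
      ∃ q ∈ n.primeFactors, (n : ℝ) / (q : ℝ) ≤ (X : ℝ) ^ (θ / 2)) := by
    rw [hA, Finset.filter_filter]
  have h2 : ∑ n ∈ A.filter (fun n : ℕ => ¬ ∃ q ∈ n.primeFactors,
      (n : ℝ) / (q : ℝ) ≤ (X : ℝ) ^ (θ / 2)), bw N₀ n ≤ κ / 2 * Y / (Real.log X) ^ 3 := by
    calc _ ≤ ∑ n ∈ A.filter (fun n : ℕ => ¬ ∃ q ∈ n.primeFactors,
        (n : ℝ) / (q : ℝ) ≤ (X : ℝ) ^ (θ / 2)), κ / 2 / (Real.log X) ^ 3 := by
          apply Finset.sum_le_sum
          intro n hn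
          rw [Finset.mem_filter, hA, Finset.mem_filter, Finset.mem_Ioc] at hn
          obtain ⟨⟨⟨hn1, hn2⟩, -⟩, hn3⟩ := hn
          push Not at hn3
          exact hX' X n hXX2 hn1 (by omega) hn3
      _ = ((A.filter (fun n : ℕ => ¬ ∃ q ∈ n.primeFactors,
        (n : ℝ) / (q : ℝ) ≤ (X : ℝ) ^ (θ / 2))).card : ℝ) * (κ / 2 / (Real.log X) ^ 3) := by
          rw [Finset.sum_const, nsmul_eq_mul]
      _ ≤ (Y : ℝ) * (κ / 2 / (Real.log X) ^ 3) := by
          apply mul_le_mul_of_nonneg_right _ (by positivity)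
          have : (A.filter (fun n : ℕ => ¬ ∃ q ∈ n.primeFactors,
            (n : ℝ) / (q : ℝ) ≤ (X : ℝ) ^ (θ / 2))).card ≤ (Ioc X (X + Y)).card := by
            apply Finset.card_le_card
            exact (Finset.filter_subset _ _).trans (Finset.filter_subset _ _)
          rw [Nat.card_Ioc] at this
          have h3 : X + Y - X = Y := by omega
          rw [h3] at this
          exact_mod_cast this
      _ = _ := by ring
  have h3 : κ * Y / (Real.log X) ^ 3 = κ / 2 * Y / (Real.log X) ^ 3 + κ / 2 * Y / (Real.log X) ^ 3 := by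
    ring
  rw [h3, e1]
  exact add_le_add h1 h2

open Classical in
theorem main (h1 : T1) (h2 : T2) (h5 : T5) (h6 : T6) (h7 : T7) (h8 : T8) (h9 : T9)
    (θ : ℝ) (hθ0 : 0 < θ) (hθ1 : θ < 1) (hS : ShortIntervals θ) (ε : ℝ) (hε : 0 < ε) :
    ∃ g : ℕ → ℝ, g 0 = 0 ∧ g 1 = 1 ∧ (∀ m n : ℕ, g (m * n) = g m * g n) ∧
      (∀ n : ℕ, 1 ≤ n → |g n| ≤ (n : ℝ) ^ (-1 + ε)) ∧ (∀ p : ℕ, p.Prime → |g p| < 1) ∧
      Tendsto (fun n : ℕ => S g n) atTop (𝓝 0) ∧
      (∃ x₀ : ℝ, ∀ x : ℝ, x₀ ≤ x → |S g ⌊x⌋₊| ≤ x ^ (θ - 1 + ε)) ∧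
      (∃ X₀ : ℕ, ∀ X : ℕ, X₀ ≤ X →
        (((Ioc X (2 * X)).filter (fun p : ℕ => p.Prime ∧ ¬ Good ε g p)).card : ℝ) ≤
          ε * ((Ioc X (2 * X)).filter Nat.Prime).card) := by
  -- parameters
  obtain ⟨e, he0, he1, heε, heθ⟩ : ∃ e : ℝ, 0 < e ∧ e < 1 / 2 ∧ 4 * e ≤ ε ∧ 4 * e ≤ 1 - θ := by
    refine ⟨min (1 / 4) (min (ε / 4) ((1 - θ) / 4)), ?_, ?_, ?_, ?_⟩
    · have : 0 < 1 - θ := by linarith
      positivity
    · exact lt_of_le_of_lt (min_le_left _ _) (by norm_num)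
    · have := (min_le_right (1 / 4) (min (ε / 4) ((1 - θ) / 4))).trans (min_le_left _ _)
      linarith
    · have := (min_le_right (1 / 4) (min (ε / 4) ((1 - θ) / 4))).trans (min_le_right _ _)
      linarith
  obtain ⟨N8, hN8, H8⟩ := h8 h2 h5 h6 h7 θ hθ0 hθ1 hS
  obtain ⟨N9, hN9, H9⟩ := h9 h2 h5 h6 h7 θ hθ0 hθ1 hS (ε / 2) (by positivity)
  set N₀ := max N8 N9 with hN0
  have hN03 : 3 ≤ N₀ := hN8.trans (le_max_left _ _)
  obtain ⟨g, hg⟩ := h1 e N₀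
  obtain ⟨hg6a, hg6b, hS0, hg0, hg1⟩ := h6 e N₀ g he0 hN03 hg
  obtain ⟨hb, hbw⟩ := h2 e N₀ g he0 hN03 hg
  have hbnd : ∀ n : ℕ, |g n| ≤ (n : ℝ) ^ (-1 + e) := by
    intro n
    refine (hb n).trans ?_
    have : 0 ≤ (n : ℝ) ^ (-1 + e) := Real.rpow_nonneg (Nat.cast_nonneg _) _
    have := (hbw n).2
    nlinarith [(hbw n).1]
  obtain ⟨n₀, hn₀⟩ := H8 N₀ (le_max_left _ _) e he0 (by linarith) g hg
  have hneg : θ - 1 + 2 * e < 0 := by linarith
  refine ⟨g, hg0, hg1, hg.mul, ?_, ?_, ?_, ?_, ?_⟩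
  · intro n hn
    refine (hbnd n).trans ?_
    exact Real.rpow_le_rpow_of_exponent_le (by exact_mod_cast hn) (by linarith)
  · intro p hp
    refine lt_of_le_of_lt (hbnd p) ?_
    exact Real.rpow_lt_one_of_one_lt_of_neg (by exact_mod_cast hp.one_lt) (by linarith)
  · -- tends to zero
    rw [tendsto_zero_iff_abs_tendsto_zero]
    have ht : Tendsto (fun n : ℕ => (n : ℝ) ^ (θ - 1 + 2 * e)) atTop (𝓝 0) := by
      have h := (tendsto_rpow_neg_atTop (neg_pos.2 hneg)).comp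
        (tendsto_natCast_atTop_atTop (R := ℝ))
      rw [neg_neg] at h
      exact h
    refine squeeze_zero' (Eventually.of_forall fun n => abs_nonneg _) ?_ ht
    filter_upwards [eventually_ge_atTop n₀] with n hn
    exact hn₀ n hn
  · -- real x
    obtain ⟨x₁, hx₁, hx⟩ := ev_rpow 2 (θ - 1 + 2 * e) (θ - 1 + ε) (by linarith)
    refine ⟨max (max x₁ 2) (n₀ + 1), fun x hxx => ?_⟩
    have hxx1 : x₁ ≤ x := ((le_max_left _ _).trans (le_max_left _ _)).trans hxx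
    have hxx2 : 2 ≤ x := ((le_max_right _ _).trans (le_max_left _ _)).trans hxx
    have hxx3 : (n₀ : ℝ) + 1 ≤ x := (le_max_right _ _).trans hxx
    have hfl : x < ⌊x⌋₊ + 1 := Nat.lt_floor_add_one x
    have hn : n₀ ≤ ⌊x⌋₊ := by
      apply Nat.le_floor
      linarith
    calc |S g ⌊x⌋₊| ≤ (⌊x⌋₊ : ℝ) ^ (θ - 1 + 2 * e) := hn₀ _ hn
      _ ≤ 2 * x ^ (θ - 1 + 2 * e) := by
          apply half_rpow _ _ _ (by linarith) (by linarith) hneg.le (by linarith)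
      _ ≤ x ^ (θ - 1 + ε) := hx x hxx1
  · -- bad primes
    have hle1 : ∃ n₁ : ℕ, ∀ n : ℕ, n₁ ≤ n → |S g n| ≤ 1 := by
      refine ⟨max n₀ 1, fun n hn => (hn₀ n ((le_max_left _ _).trans hn)).trans ?_⟩
      exact Real.rpow_le_one_of_one_le_of_nonpos (by exact_mod_cast (le_max_right _ _).trans hn)
        hneg.le
    obtain ⟨X₁, hX₁⟩ := H9 N₀ (le_max_right _ _) e he0 (by linarith) g hg hle1
    obtain ⟨c, hc, X₂, hX₂2, hX₂⟩ := hS
    obtain ⟨x₃, hx₃3, hx₃⟩ := ev_log 1 (1 - e) (ε * c / 4) (by linarith) (by positivity)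
    obtain ⟨x₄, hx₄3, hx₄⟩ := ev_log 1 0 (ε * c / 4) (by norm_num) (by positivity)
    obtain ⟨x₅, hx₅1, hx₅⟩ := ev_rpow 2 (-1 + 2 * e) (-1 + ε) (by linarith)
    refine ⟨max (max X₁ X₂) (max ⌈x₃⌉₊ (max ⌈x₄⌉₊ ⌈x₅⌉₊)), fun X hX => ?_⟩
    have hXa : X₁ ≤ X := ((le_max_left _ _).trans (le_max_left _ _)).trans hX
    have hXb : X₂ ≤ X := ((le_max_right _ _).trans (le_max_left _ _)).trans hX
    have hXc : x₃ ≤ X := Nat.ceil_le.1 (((le_max_left _ _).trans (le_max_right _ _)).trans hX)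
    have hXd : x₄ ≤ X := Nat.ceil_le.1 (((le_max_left _ _).trans
      ((le_max_right _ _).trans (le_max_right _ _))).trans hX)
    have hXe : x₅ ≤ X := Nat.ceil_le.1 (((le_max_right _ _).trans
      ((le_max_right _ _).trans (le_max_right _ _))).trans hX)
    have hX3 : (3 : ℝ) ≤ X := hx₃3.trans hXc
    have hXpos : (0 : ℝ) < X := by linarith
    have hlogX : 0 < Real.log X := Real.log_pos (by linarith)
    set G : ℕ := ⌊(X : ℝ) ^ e⌋₊ with hG
    have hGle : (G : ℝ) ≤ (X : ℝ) ^ e := Nat.floor_le (Real.rpow_nonneg hXpos.le _)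
    have hGlt : (X : ℝ) ^ e < G + 1 := Nat.lt_floor_add_one _
    have hGX : (G : ℝ) ≤ X := by
      refine hGle.trans ?_
      calc (X : ℝ) ^ e ≤ (X : ℝ) ^ (1 : ℝ) :=
            Real.rpow_le_rpow_of_exponent_le (by linarith) (by linarith)
        _ = X := Real.rpow_one _
    -- covering
    have hcover : (Ioc X (2 * X)).filter (fun p : ℕ => p.Prime ∧ ¬ Good ε g p) ⊆
        (Ioc X (2 * X)).filter (fun p : ℕ => p.Prime ∧ S g p ≠ 0) ∪
        (Ioc X (2 * X)).filter (fun p : ℕ => p.Prime ∧ ∀ q : ℕ, q.Prime → p < q → p + G < q) := by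
      intro p hp
      rw [Finset.mem_filter, Finset.mem_Ioc] at hp
      rw [Finset.mem_union, Finset.mem_filter, Finset.mem_filter, Finset.mem_Ioc]
      by_contra hcon
      push Not at hcon
      have hSp : S g p = 0 := hcon.1 hp.1 hp.2.1
      obtain ⟨q, hq, hpq, hqG⟩ := hcon.2 hp.1 hp.2.1
      apply hp.2.2
      refine ⟨hSp, fun x hpx hxq => ?_⟩
      have hxq' := hxq q hq hpq
      have hXp : (X : ℝ) < p := by exact_mod_cast hp.1.1
      have hp0 : (0 : ℝ) < p := by linarith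
      have hx0 : 0 < x := by linarith
      have hflp : p ≤ ⌊x⌋₊ := Nat.le_floor hpx
      have hflx : (⌊x⌋₊ : ℝ) ≤ x := Nat.floor_le hx0.le
      have hxpG : x < p + G := by
        have : (q : ℝ) ≤ p + G := by exact_mod_cast hqG
        linarith
      have hflG : ⌊x⌋₊ ≤ p + G := by
        have : (⌊x⌋₊ : ℝ) < p + G := by linarith
        exact_mod_cast this.le
      rw [S_diff g p _ hflp, hSp, zero_add]
      calc |∑ k ∈ Ioc p ⌊x⌋₊, g k| ≤ ∑ k ∈ Ioc p ⌊x⌋₊, |g k| := Finset.abs_sum_le_sum_abs _ _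
        _ ≤ ∑ k ∈ Ioc p ⌊x⌋₊, (p : ℝ) ^ (-1 + e) := by
            apply Finset.sum_le_sum
            intro k hk
            rw [Finset.mem_Ioc] at hk
            refine (hbnd k).trans ?_
            exact Real.rpow_le_rpow_of_nonpos hp0 (by exact_mod_cast hk.1.le) (by linarith)
        _ = ((⌊x⌋₊ - p : ℕ) : ℝ) * (p : ℝ) ^ (-1 + e) := by
            rw [Finset.sum_const, Nat.card_Ioc, nsmul_eq_mul]
        _ ≤ (X : ℝ) ^ e * (p : ℝ) ^ (-1 + e) := by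
            apply mul_le_mul_of_nonneg_right _ (Real.rpow_nonneg hp0.le _)
            have : ((⌊x⌋₊ - p : ℕ) : ℝ) ≤ G := by
              have : ⌊x⌋₊ - p ≤ G := by omega
              exact_mod_cast this
            linarith
        _ ≤ (p : ℝ) ^ e * (p : ℝ) ^ (-1 + e) := by
            apply mul_le_mul_of_nonneg_right _ (Real.rpow_nonneg hp0.le _)
            exact Real.rpow_le_rpow hXpos.le hXp.le he0.le
        _ = (p : ℝ) ^ (-1 + 2 * e) := by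
            rw [← Real.rpow_add hp0]
            ring_nf
        _ ≤ 2 * x ^ (-1 + 2 * e) := by
            apply half_rpow x p _ hx0 _ (by linarith) (by linarith)
            linarith
        _ ≤ x ^ (-1 + ε) := hx₅ x (by linarith)
    have hc1 := hX₁ X hXa
    have hc2 := gapCount X G
    have hprimes : c * X / Real.log X ≤ (((Ioc X (X + X)).filter Nat.Prime).card : ℝ) := by
      apply hX₂ X X hXb _ (le_refl _)
      calc (X : ℝ) ^ θ ≤ (X : ℝ) ^ (1 : ℝ) :=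
            Real.rpow_le_rpow_of_exponent_le (by linarith) hθ1.le
        _ = X := Real.rpow_one _
    rw [← two_mul] at hprimes
    have hcard : (((Ioc X (2 * X)).filter (fun p : ℕ => p.Prime ∧ ¬ Good ε g p)).card : ℝ) ≤
        (((Ioc X (2 * X)).filter (fun p : ℕ => p.Prime ∧ S g p ≠ 0)).card : ℝ) +
        (((Ioc X (2 * X)).filter (fun p : ℕ => p.Prime ∧ ∀ q : ℕ, q.Prime → p < q →
          p + G < q)).card : ℝ) := by
      have := (Finset.card_le_card hcover).trans (Finset.card_union_le _ _)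
      exact_mod_cast this
    have hgap : (((Ioc X (2 * X)).filter (fun p : ℕ => p.Prime ∧ ∀ q : ℕ, q.Prime → p < q →
          p + G < q)).card : ℝ) ≤ (X : ℝ) ^ (1 - e) + 1 := by
      have h : (((Ioc X (2 * X)).filter (fun p : ℕ => p.Prime ∧ ∀ q : ℕ, q.Prime → p < q →
          p + G < q)).card : ℝ) ≤ ((X / (G + 1) : ℕ) : ℝ) + 1 := by exact_mod_cast hc2
      refine h.trans ?_
      have h2 : ((X / (G + 1) : ℕ) : ℝ) ≤ (X : ℝ) / ((G + 1 : ℕ) : ℝ) := Nat.cast_div_le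
      have h3 : (X : ℝ) / ((G + 1 : ℕ) : ℝ) ≤ (X : ℝ) ^ (1 - e) := by
        push_cast
        rw [Real.rpow_sub hXpos, Real.rpow_one]
        exact div_le_div_of_nonneg_left hXpos.le (Real.rpow_pos_of_pos hXpos _) hGlt.le
      linarith
    have h33 := hx₃ X hXc
    have h44 := hx₄ X hXd
    rw [Real.rpow_zero, one_mul] at h44
    rw [one_mul] at h33
    have hfin : (X : ℝ) ^ (1 - e) + 1 ≤ ε / 2 * (((Ioc X (2 * X)).filter Nat.Prime).card : ℝ) := by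
      have h5 : ε * c / 4 * X / Real.log X + ε * c / 4 * X / Real.log X =
          ε / 2 * (c * X / Real.log X) := by ring
      have h6 : ε / 2 * (c * X / Real.log X) ≤
          ε / 2 * (((Ioc X (2 * X)).filter Nat.Prime).card : ℝ) :=
        mul_le_mul_of_nonneg_left hprimes (by positivity)
      linarith
    linarith


open Classical in
/-- the greedy completely multiplicative function -/
theorem final (θ : ℝ) (hθ0 : 0 < θ) (hθ1 : θ < 1) (hS : ShortIntervals θ) (ε : ℝ) (hε : 0 < ε) :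
    ∃ g : ℕ → ℝ, g 0 = 0 ∧ g 1 = 1 ∧ (∀ m n : ℕ, g (m * n) = g m * g n) ∧
      (∀ n : ℕ, 1 ≤ n → |g n| ≤ (n : ℝ) ^ (-1 + ε)) ∧ (∀ p : ℕ, p.Prime → |g p| < 1) ∧
      Tendsto (fun n : ℕ => S g n) atTop (𝓝 0) ∧
      (∃ x₀ : ℝ, ∀ x : ℝ, x₀ ≤ x → |S g ⌊x⌋₊| ≤ x ^ (θ - 1 + ε)) ∧
      (∃ X₀ : ℕ, ∀ X : ℕ, X₀ ≤ X →
        (((Ioc X (2 * X)).filter (fun p : ℕ => p.Prime ∧ ¬ Good ε g p)).card : ℝ) ≤
          ε * ((Ioc X (2 * X)).filter Nat.Prime).card) :=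
  main t1 t2 (t5 t5a t5b Pool.Agent.H932R4.MO.bt3 t3) t6 Pool.Agent.H449R3.MoT7.t7 t8
    T9Aux.t9 θ hθ0 hθ1 hS ε hε

end Pool.Agent.U866.CMO
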