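import Pool.Agent.H932R4.MO.Stmts

/-!
# Completely multiplicative functions with greedy partial sums: definitions and statements

The completely multiplicative version of the project `Pool.Agent.H932R4.MO`.
-/

set_option autoImplicit false

open Finset

namespace Pool.Agent.U866.CMO

open Pool.Agent.H932R4.MO (Bd clip S ShortIntervals BT3 T7)

/-- the clipped greedy completely multiplicative function: it vanishes at the primes `< N₀`; at a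
prime `p ≥ N₀` it cancels the partial sum as far as the cap allows -/
structure IsGreedy (ε : ℝ) (N₀ : ℕ) (f : ℕ → ℝ) : Prop where
  zero : f 0 = 0
  one : f 1 = 1
  mul : ∀ m n : ℕ, f (m * n) = f m * f n
  small : ∀ p : ℕ, p.Prime → p < N₀ → f p = 0
  big : ∀ p : ℕ, p.Prime → N₀ ≤ p → f p = - clip (Bd ε p) (∑ n ∈ range p, f n)

/-- the weight of a prime -/
noncomputable def wt (N₀ p : ℕ) : ℝ := if N₀ ≤ p then 1 / (Real.log p) ^ 2 else 0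

/-- the completely multiplicative weight `b(n)`, with `b(p) = (log p)^(-2)` for `p ≥ N₀` and
`b(p) = 0` for `p < N₀` -/
noncomputable def bw (N₀ : ℕ) (n : ℕ) : ℝ :=
  if n = 0 then 0 else (n.primeFactorsList.map (wt N₀)).prod

/-- T1: existence of the greedy function -/
def T1 : Prop := ∀ (ε : ℝ) (N₀ : ℕ), ∃ f : ℕ → ℝ, IsGreedy ε N₀ f

/-- T2: pointwise bound -/
def T2 : Prop := ∀ (ε : ℝ) (N₀ : ℕ) (f : ℕ → ℝ), 0 < ε → 3 ≤ N₀ → IsGreedy ε N₀ f →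
  (∀ n : ℕ, |f n| ≤ bw N₀ n * (n : ℝ) ^ (-1 + ε)) ∧ (∀ n : ℕ, 0 ≤ bw N₀ n ∧ bw N₀ n ≤ 1)

/-- T3: the tail of the Dirichlet series of the weight is small -/
def T3 : Prop := ∀ τ : ℝ, 0 < τ → ∃ N₁ : ℕ, 3 ≤ N₁ ∧ ∀ N₀ : ℕ, N₁ ≤ N₀ → ∀ M : ℕ,
  ∑ m ∈ Icc 2 M, bw N₀ m / m ≤ τ

open Classical in
/-- T5a: contribution of the composite `n` with a large prime factor `q`, `n / q ≤ X^(θ/2)` -/
def T5a : Prop := BT3 → T3 → ∀ θ κ : ℝ, 0 < θ → θ < 1 → 0 < κ → ∃ N₁ : ℕ, 3 ≤ N₁ ∧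
  ∀ N₀ : ℕ, N₁ ≤ N₀ → ∃ X₁ : ℕ, 3 ≤ X₁ ∧ ∀ X Y : ℕ, X₁ ≤ X → (X : ℝ) ^ θ ≤ Y → Y ≤ X →
    ∑ n ∈ (Ioc X (X + Y)).filter (fun n : ℕ => ¬ n.Prime ∧
      ∃ q ∈ n.primeFactors, (n : ℝ) / (q : ℝ) ≤ (X : ℝ) ^ (θ / 2)), bw N₀ n ≤
        κ * Y / (Real.log X) ^ 3

/-- T5b: pointwise bound of the weight for the other `n` -/
def T5b : Prop := ∀ θ κ : ℝ, 0 < θ → θ < 1 → 0 < κ → ∀ N₀ : ℕ, 3 ≤ N₀ → ∃ X₁ : ℕ, 3 ≤ X₁ ∧
  ∀ X n : ℕ, X₁ ≤ X → X < n → n ≤ 2 * X →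
    (∀ q ∈ n.primeFactors, (X : ℝ) ^ (θ / 2) < (n : ℝ) / (q : ℝ)) → bw N₀ n ≤ κ / (Real.log X) ^ 3

/-- T5: the drift bound -/
def T5 : Prop := ∀ θ κ : ℝ, 0 < θ → θ < 1 → 0 < κ → ∃ N₁ : ℕ, 3 ≤ N₁ ∧
  ∀ N₀ : ℕ, N₁ ≤ N₀ → ∃ X₁ : ℕ, 3 ≤ X₁ ∧ ∀ X Y : ℕ, X₁ ≤ X → (X : ℝ) ^ θ ≤ Y → Y ≤ X →
    ∑ n ∈ (Ioc X (X + Y)).filter (fun n : ℕ => ¬ n.Prime), bw N₀ n ≤ κ * Y / (Real.log X) ^ 3

/-- T6: the partial sums of a greedy function form a queue -/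
def T6 : Prop := ∀ (ε : ℝ) (N₀ : ℕ) (f : ℕ → ℝ), 0 < ε → 3 ≤ N₀ → IsGreedy ε N₀ f →
  (∀ n : ℕ, 1 ≤ n → ¬ n.Prime → |S f n| ≤ |S f (n - 1)| + |f n|) ∧
  (∀ p : ℕ, p.Prime → N₀ ≤ p → |S f p| = max (|S f (p - 1)| - Bd ε p) 0) ∧
  S f 0 = 0 ∧ f 0 = 0 ∧ f 1 = 1

/-- T8: the long run bound -/
def T8 : Prop := T2 → T5 → T6 → T7 → ∀ θ : ℝ, 0 < θ → θ < 1 → ShortIntervals θ → ∃ N₁ : ℕ, 3 ≤ N₁ ∧
  ∀ N₀ : ℕ, N₁ ≤ N₀ → ∀ ε : ℝ, 0 < ε → ε < 1 → ∀ f : ℕ → ℝ, IsGreedy ε N₀ f →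
    ∃ n₀ : ℕ, ∀ n : ℕ, n₀ ≤ n → |S f n| ≤ (n : ℝ) ^ (θ - 1 + 2 * ε)

/-- T9: most primes are zeros of the partial sum. -/
def T9 : Prop := T2 → T5 → T6 → T7 → ∀ θ : ℝ, 0 < θ → θ < 1 → ShortIntervals θ → ∀ κ : ℝ, 0 < κ →
  ∃ N₁ : ℕ, 3 ≤ N₁ ∧ ∀ N₀ : ℕ, N₁ ≤ N₀ → ∀ ε : ℝ, 0 < ε → ε < 1 → ∀ f : ℕ → ℝ, IsGreedy ε N₀ f →
    (∃ n₀ : ℕ, ∀ n : ℕ, n₀ ≤ n → |S f n| ≤ 1) →
    ∃ X₁ : ℕ, ∀ X : ℕ, X₁ ≤ X →
      (((Ioc X (2 * X)).filter (fun p => p.Prime ∧ S f p ≠ 0)).card : ℝ) ≤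
        κ * ((Ioc X (2 * X)).filter Nat.Prime).card

/-! ### the weight -/

lemma bw_zero (N₀ : ℕ) : bw N₀ 0 = 0 := if_pos rfl

lemma bw_one (N₀ : ℕ) : bw N₀ 1 = 1 := by simp [bw]

lemma bw_mul_all (N₀ m n : ℕ) : bw N₀ (m * n) = bw N₀ m * bw N₀ n := by
  rcases Nat.eq_zero_or_pos m with rfl | hm
  · rw [zero_mul, bw_zero, zero_mul]
  rcases Nat.eq_zero_or_pos n with rfl | hn
  · rw [mul_zero, bw_zero, mul_zero]
  unfold bw
  rw [if_neg hm.ne', if_neg hn.ne', if_neg (Nat.mul_pos hm hn).ne',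
    ((Nat.perm_primeFactorsList_mul hm.ne' hn.ne').map (wt N₀)).prod_eq, List.map_append,
    List.prod_append]

lemma bw_prime (N₀ p : ℕ) (hp : p.Prime) : bw N₀ p = wt N₀ p := by
  unfold bw
  rw [if_neg hp.ne_zero, Nat.primeFactorsList_prime hp]
  simp

lemma wt_nonneg (N₀ p : ℕ) : 0 ≤ wt N₀ p := by
  unfold wt
  split_ifs
  · positivity
  · exact le_rfl

lemma bw_nonneg (N₀ n : ℕ) : 0 ≤ bw N₀ n := by
  unfold bw
  split_ifs
  · exact le_rfl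
  · apply List.prod_nonneg
    intro a ha
    rw [List.mem_map] at ha
    obtain ⟨p, _, rfl⟩ := ha
    exact wt_nonneg N₀ p

lemma one_lt_log {p : ℕ} (hp : 3 ≤ p) : 1 < Real.log p := by
  have h3 : (3 : ℝ) ≤ p := by exact_mod_cast hp
  rw [Real.lt_log_iff_exp_lt (by linarith)]
  have := Real.exp_one_lt_d9
  linarith

lemma wt_le_one (N₀ p : ℕ) (hN : 3 ≤ N₀) : wt N₀ p ≤ 1 := by
  unfold wt
  split_ifs with h
  · have h1 := one_lt_log (hN.trans h)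
    rw [div_le_one (by positivity)]
    nlinarith
  · exact zero_le_one

lemma bw_le_one (N₀ n : ℕ) (hN : 3 ≤ N₀) : bw N₀ n ≤ 1 := by
  induction n using Nat.recOnMul with
  | zero => rw [bw_zero]; exact zero_le_one
  | one => rw [bw_one]
  | prime p hp => rw [bw_prime N₀ p hp]; exact wt_le_one N₀ p hN
  | mul a b ha hb =>
    rw [bw_mul_all]
    exact mul_le_one₀ ha (bw_nonneg N₀ b) hb

lemma bw_mul (N₀ m q : ℕ) (hq : q.Prime) (h : bw N₀ (m * q) ≠ 0) :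
    bw N₀ (m * q) = bw N₀ m * (1 / (Real.log q) ^ 2) := by
  rw [bw_mul_all, bw_prime N₀ q hq] at h ⊢
  have h1 : wt N₀ q ≠ 0 := fun h0 => h (by rw [h0, mul_zero])
  unfold wt at h1 ⊢
  by_cases hN : N₀ ≤ q
  · rw [if_pos hN]
  · rw [if_neg hN] at h1
    exact absurd rfl h1

/-! ### T2 and T6 -/

theorem abs_clip_le {b : ℝ} (hb : 0 ≤ b) (s : ℝ) : |clip b s| ≤ b := by
  unfold clip
  rw [abs_le]
  exact ⟨le_max_left _ _, max_le (by linarith) (min_le_right _ _)⟩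

theorem t2 : T2 := by
  intro ε N₀ f hε hN hf
  refine ⟨fun n => ?_, fun n => ⟨bw_nonneg N₀ n, bw_le_one N₀ n hN⟩⟩
  induction n using Nat.recOnMul with
  | zero =>
    rw [hf.zero, bw_zero]
    simp
  | one =>
    rw [hf.one, bw_one]
    simp
  | prime p hp =>
    rw [bw_prime N₀ p hp]
    unfold wt
    split_ifs with h
    · rw [hf.big p hp h, abs_neg]
      refine (abs_clip_le ?_ _).trans (le_of_eq ?_)
      · unfold Bd
        exact div_nonneg (Real.rpow_nonneg (Nat.cast_nonneg _) _) (sq_nonneg _)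
      · unfold Bd
        ring
    · rw [hf.small p hp (not_le.1 h)]
      simp
  | mul a b ha hb =>
    rw [hf.mul, bw_mul_all, abs_mul, Nat.cast_mul,
      Real.mul_rpow (Nat.cast_nonneg _) (Nat.cast_nonneg _)]
    calc |f a| * |f b| ≤ (bw N₀ a * (a : ℝ) ^ (-1 + ε)) * (bw N₀ b * (b : ℝ) ^ (-1 + ε)) :=
          mul_le_mul ha hb (abs_nonneg _) ((abs_nonneg _).trans ha)
      _ = _ := by ring

theorem t6 : T6 := by
  intro ε N₀ f hε hN hf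
  have hstep : ∀ n : ℕ, 1 ≤ n → S f n = S f (n - 1) + f n := by
    intro n hn
    obtain ⟨m, rfl⟩ := Nat.exists_eq_add_of_le' hn
    unfold S
    rw [Nat.add_sub_cancel, Finset.sum_range_succ]
  refine ⟨?_, ?_, ?_, hf.zero, hf.one⟩
  · intro n hn _
    rw [hstep n hn]
    exact abs_add_le _ _
  · intro p hp hpN
    have hp1 : 1 ≤ p := hp.one_lt.le
    have h2 : ∑ n ∈ range p, f n = S f (p - 1) := by
      unfold S
      rw [Nat.sub_add_cancel hp1]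
    rw [hstep p hp1, hf.big p hp hpN, h2]
    have hb : 0 ≤ Bd ε p := by
      unfold Bd
      exact div_nonneg (Real.rpow_nonneg (Nat.cast_nonneg _) _) (sq_nonneg _)
    generalize S f (p - 1) = s
    generalize Bd ε p = b at hb ⊢
    unfold clip
    rcases le_total s b with h1 | h1
    · rw [min_eq_left h1]
      rcases le_total (-b) s with h2 | h2
      · rw [max_eq_right h2, add_neg_cancel, abs_zero, max_eq_right]
        have := abs_le.2 ⟨h2, h1⟩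
        linarith
      · rw [max_eq_left h2]
        have h3 : s ≤ 0 := by linarith
        rw [abs_of_nonpos (by linarith : s + -(-b) ≤ 0), abs_of_nonpos h3,
          max_eq_left (by linarith)]
        ring
    · rw [min_eq_right h1, max_eq_right (by linarith : -b ≤ b)]
      have h3 : 0 ≤ s := by linarith
      rw [abs_of_nonneg (by linarith : 0 ≤ s + -b), abs_of_nonneg h3, max_eq_left (by linarith)]
      ring
  · unfold S
    rw [Finset.sum_range_one]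
    exact hf.zero

/-! ### T1 -/

open Classical in
/-- one step of the recursion -/
noncomputable def step (ε : ℝ) (N₀ : ℕ) (n : ℕ) (g : (k : ℕ) → k < n → ℝ) : ℝ :=
  if n = 0 then 0 else
    if n.Prime then
      if n < N₀ then 0 else - clip (Bd ε n) (∑ k ∈ range n, if h : k < n then g k h else 0)
    else (n.primeFactorsList.map (fun p => if h : p < n then g p h else 0)).prod

/-- the greedy function -/
noncomputable def gr (ε : ℝ) (N₀ : ℕ) : ℕ → ℝ := WellFounded.fix Nat.lt_wfRel.wf (step ε N₀)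

lemma gr_eq (ε : ℝ) (N₀ : ℕ) (n : ℕ) : gr ε N₀ n = step ε N₀ n fun k _ => gr ε N₀ k :=
  WellFounded.fix_eq Nat.lt_wfRel.wf (step ε N₀) n

lemma gr_list (ε : ℝ) (N₀ : ℕ) (n : ℕ) (hn : n ≠ 0) :
    gr ε N₀ n = (n.primeFactorsList.map (gr ε N₀)).prod := by
  by_cases hp : n.Prime
  · rw [Nat.primeFactorsList_prime hp]
    simp
  · rw [gr_eq]
    unfold step
    rw [if_neg hn, if_neg hp]
    congr 1
    refine List.map_congr_left fun p hpn => ?_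
    have h1 := Nat.prime_of_mem_primeFactorsList hpn
    have h2 : p ≤ n := Nat.le_of_mem_primeFactorsList hpn
    have h3 : p ≠ n := fun h => hp (h ▸ h1)
    rw [dif_pos (lt_of_le_of_ne h2 h3)]

/-- existence of the clipped greedy function -/
theorem t1 : T1 := by
  intro ε N₀
  have h0 : gr ε N₀ 0 = 0 := by
    rw [gr_eq]
    unfold step
    rw [if_pos rfl]
  refine ⟨gr ε N₀, h0, ?_, ?_, ?_, ?_⟩
  · rw [gr_list ε N₀ 1 one_ne_zero]
    simp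
  · intro m n
    rcases Nat.eq_zero_or_pos m with rfl | hm
    · rw [zero_mul, h0, zero_mul]
    rcases Nat.eq_zero_or_pos n with rfl | hn
    · rw [mul_zero, h0, mul_zero]
    rw [gr_list ε N₀ _ (Nat.mul_pos hm hn).ne', gr_list ε N₀ m hm.ne', gr_list ε N₀ n hn.ne',
      ((Nat.perm_primeFactorsList_mul hm.ne' hn.ne').map (gr ε N₀)).prod_eq, List.map_append,
      List.prod_append]
  · intro p hp hpN
    rw [gr_eq]
    unfold step
    rw [if_neg hp.ne_zero, if_pos hp, if_pos hpN]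
  · intro p hp hpN
    rw [gr_eq]
    unfold step
    rw [if_neg hp.ne_zero, if_pos hp, if_neg (not_lt.2 hpN)]
    congr 2
    refine sum_congr rfl fun k hk => ?_
    rw [dif_pos (mem_range.1 hk)]

end Pool.Agent.U866.CMO
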