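import Pool.Agent.U866.CMO.Stmts
import Pool.Agent.H823R3.MO.T3

/-! # T3: the tail of the Dirichlet series of the completely multiplicative weight -/

set_option autoImplicit false

open Finset

namespace Pool.Agent.U866.CMO

open Pool.Agent.H823R3.MO (g g_nonneg g_sum')

/-- the weight divided by `n`, as a completely multiplicative function -/
noncomputable def gm (N₀ : ℕ) : ℕ →*₀ ℝ where
  toFun n := bw N₀ n / n
  map_zero' := by simp [bw_zero]
  map_one' := by simp [bw_one]
  map_mul' m n := by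
    rw [bw_mul_all, Nat.cast_mul]
    exact mul_div_mul_comm _ _ _ _

lemma gm_apply (N₀ n : ℕ) : gm N₀ n = bw N₀ n / n := rfl

lemma gm_nonneg (N₀ n : ℕ) : 0 ≤ gm N₀ n := div_nonneg (bw_nonneg _ _) (Nat.cast_nonneg _)

lemma gm_prime (N₀ p : ℕ) (hp : p.Prime) : gm N₀ p = if N₀ ≤ p then g p else 0 := by
  rw [gm_apply, bw_prime N₀ p hp]
  unfold wt g
  split_ifs
  · rw [div_div, mul_comm]
  · simp

lemma g_le_half (p : ℕ) (hp : 3 ≤ p) : g p ≤ 1 / 2 := by
  have h1 := one_lt_log hp
  have h3 : (3 : ℝ) ≤ p := by exact_mod_cast hp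
  unfold g
  apply one_div_le_one_div_of_le (by norm_num)
  nlinarith

theorem sum_le (N₀ M : ℕ) (hN : 3 ≤ N₀) :
    ∑ m ∈ Icc 2 M, bw N₀ m / m ≤ Real.exp (2 / Real.log ((N₀ : ℝ) - 1)) - 1 := by
  have hlt : ∀ {p : ℕ}, p.Prime → ‖gm N₀ p‖ < 1 := by
    intro p hp
    rw [Real.norm_of_nonneg (gm_nonneg _ _), gm_prime N₀ p hp]
    split_ifs with h
    · exact (g_le_half p (hN.trans h)).trans_lt (by norm_num)
    · norm_num
  have hsum := (EulerProduct.summable_and_hasSum_smoothNumbers_prod_primesBelow_geometric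
    (f := ((gm N₀ : ℕ →*₀ ℝ) : ℕ →* ℝ)) (fun {p} hp => hlt hp) (M + 1)).2
  have hle : ∑ m ∈ Icc 1 M, gm N₀ m ≤ ∏ p ∈ (M + 1).primesBelow, (1 - gm N₀ p)⁻¹ := by
    let e : ℕ ↪ ℕ := ⟨id, fun _ _ h => h⟩
    have hmem : ∀ m ∈ Icc 1 M, m ∈ (M + 1).smoothNumbers := by
      intro m hm
      rw [mem_Icc] at hm
      exact Nat.mem_smoothNumbers_of_lt (by omega) (by omega)
    have h1 : ∑ m ∈ Icc 1 M, gm N₀ m =
        ∑ m ∈ (Icc 1 M).attach, gm N₀ (m : ℕ) := (Finset.sum_attach _ _).symm
    rw [h1]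
    let φ : {x // x ∈ Icc 1 M} → (M + 1).smoothNumbers := fun m => ⟨m.1, hmem m.1 m.2⟩
    have hφ : Function.Injective φ := by
      intro a b hab
      have := congrArg (fun z : (M + 1).smoothNumbers => (z : ℕ)) hab
      exact Subtype.ext this
    have h2 : ∑ m ∈ (Icc 1 M).attach, gm N₀ (m : ℕ) =
        ∑ z ∈ (Icc 1 M).attach.map ⟨φ, hφ⟩, gm N₀ (z : ℕ) := by
      rw [Finset.sum_map]
      rfl
    rw [h2]
    exact sum_le_hasSum _ (fun z _ => gm_nonneg _ _) hsum
  have hprod : ∏ p ∈ (M + 1).primesBelow, (1 - gm N₀ p)⁻¹ ≤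
      Real.exp (2 / Real.log ((N₀ : ℝ) - 1)) := by
    have h1 : ∀ p ∈ (M + 1).primesBelow, (1 - gm N₀ p)⁻¹ ≤
        Real.exp (2 * (if N₀ ≤ p then g p else 0)) := by
      intro p hp
      have hp' := Nat.prime_of_mem_primesBelow hp
      rw [gm_prime N₀ p hp']
      split_ifs with h
      · have h2 := g_le_half p (hN.trans h)
        have h3 := g_nonneg p
        rw [inv_le_comm₀ (by linarith) (Real.exp_pos _), ← Real.exp_neg]
        have h4 := Real.exp_bound_div_one_sub_of_interval (x := g p) h3 (by linarith)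
        -- exp (-2x) ≤ 1 - x for 0 ≤ x ≤ 1/2
        have h5 : Real.exp (-(2 * g p)) ≤ 1 / (1 + 2 * g p) := by
          rw [Real.exp_neg, ← one_div]
          apply one_div_le_one_div_of_le (by linarith)
          have := Real.add_one_le_exp (2 * g p)
          linarith
        refine h5.trans ?_
        rw [div_le_iff₀ (by linarith)]
        nlinarith
      · simp
    refine (Finset.prod_le_prod (fun p hp => ?_) h1).trans ?_
    · have hp' := Nat.prime_of_mem_primesBelow hp
      have := hlt hp'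
      rw [Real.norm_of_nonneg (gm_nonneg _ _)] at this
      exact inv_nonneg.2 (by linarith)
    · rw [← Real.exp_sum]
      apply Real.exp_le_exp.2
      rw [← Finset.mul_sum]
      have h2 : ∑ p ∈ (M + 1).primesBelow, (if N₀ ≤ p then g p else 0) ≤ ∑ n ∈ Icc N₀ M, g n := by
        rw [← Finset.sum_filter]
        apply Finset.sum_le_sum_of_subset_of_nonneg
        · intro p hp
          rw [mem_filter] at hp
          have := Nat.lt_of_mem_primesBelow hp.1
          rw [mem_Icc]
          exact ⟨hp.2, by omega⟩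
        · intro n _ _
          exact g_nonneg n
      have h3 := g_sum' N₀ M hN
      calc 2 * ∑ p ∈ (M + 1).primesBelow, (if N₀ ≤ p then g p else 0)
          ≤ 2 * (1 / Real.log ((N₀ : ℝ) - 1)) := by linarith
        _ = 2 / Real.log ((N₀ : ℝ) - 1) := by ring
  rcases Nat.lt_or_ge M 2 with hM | hM
  · rw [Finset.Icc_eq_empty (by omega), Finset.sum_empty]
    have hN' : (3 : ℝ) ≤ N₀ := by exact_mod_cast hN
    have : 0 ≤ 2 / Real.log ((N₀ : ℝ) - 1) :=
      div_nonneg (by norm_num) (Real.log_nonneg (by linarith))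
    have := Real.add_one_le_exp (2 / Real.log ((N₀ : ℝ) - 1))
    linarith
  · have e1 : Icc 1 M = insert 1 (Icc 2 M) := by
      ext k
      simp only [Finset.mem_insert, Finset.mem_Icc]
      omega
    rw [e1, Finset.sum_insert (by simp), map_one] at hle
    have e2 : ∑ m ∈ Icc 2 M, bw N₀ m / m = ∑ m ∈ Icc 2 M, gm N₀ m := rfl
    rw [e2]
    linarith

/-- T3: the tail of the Dirichlet series of the weight is small -/
theorem t3 : T3 := by
  intro τ hτ
  have hl : 0 < Real.log (1 + τ) := Real.log_pos (by linarith)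
  obtain ⟨N, hN⟩ := exists_nat_gt (Real.exp (2 / Real.log (1 + τ)) + 1)
  refine ⟨N + 3, by omega, fun N₀ hN₀ M => ?_⟩
  refine (sum_le N₀ M (by omega)).trans ?_
  have hN₀' : (N : ℝ) + 3 ≤ N₀ := by exact_mod_cast hN₀
  have h1 : 2 / Real.log (1 + τ) ≤ Real.log ((N₀ : ℝ) - 1) := by
    rw [Real.le_log_iff_exp_le (by
      have := Real.exp_pos (2 / Real.log (1 + τ))
      linarith)]
    linarith
  have h0 : 0 < Real.log ((N₀ : ℝ) - 1) := lt_of_lt_of_le (by positivity) h1
  have h2 : 2 / Real.log ((N₀ : ℝ) - 1) ≤ Real.log (1 + τ) := by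
    rw [div_le_iff₀ h0]
    rw [div_le_iff₀ hl] at h1
    linarith
  have h3 := Real.exp_le_exp.mpr h2
  rw [Real.exp_log (by linarith)] at h3
  linarith

end Pool.Agent.U866.CMO
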